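import Pool.Agent.W770.PC.Stms

/-! Project PC: integrals of the weight. -/

set_option autoImplicit false

open MeasureTheory Set Filter Topology
open scoped ENNReal NNReal

namespace Pool.Agent.W585.PC

open Pool.Agent.W770.PC

noncomputable def H (u : ℝ) : ℝ≥0∞ := ENNReal.ofReal ((1 + |u|) ^ (-(3 / 2) : ℝ))

theorem H_meas : Measurable H := by
  unfold H
  fun_prop

theorem H_int : ∫⁻ u, H u < ⊤ := by
  have h : Integrable (fun x : ℝ => (1 + ‖x‖) ^ (-(3 / 2) : ℝ)) volume :=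
    integrable_one_add_norm (by simp; norm_num)
  have h2 := h.lintegral_lt_top
  exact h2

theorem H_scale (a : ℕ) (x : ℝ) :
    ∫⁻ v, H ((v + x) / 2 ^ a) = ENNReal.ofReal (2 ^ a) * ∫⁻ u, H u := by
  have h1 : ∫⁻ v, H ((v + x) / 2 ^ a) = ∫⁻ v, H (v / 2 ^ a) :=
    lintegral_add_right_eq_self (μ := volume) (fun v => H (v / 2 ^ a)) x
  have hc : ((2 : ℝ) ^ a)⁻¹ ≠ 0 := by positivity
  have h2 : ∫⁻ v, H (v / 2 ^ a) = ∫⁻ v, H (v * (2 ^ a)⁻¹) := by
    simp only [div_eq_mul_inv]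
  rw [h1, h2, ← lintegral_map (μ := volume) (g := fun v : ℝ => v * (2 ^ a)⁻¹) H_meas (by fun_prop),
    Real.map_volume_mul_right hc, lintegral_smul_measure, inv_inv, abs_of_pos (by positivity)]
  rfl

theorem wt_le (a : ℕ) {p q : ℝ} (hp : 0 ≤ p) (hq : 0 ≤ q) :
    wt a (p + q) ≤ (1 + p / 2 ^ a) ^ (-(3 / 2) : ℝ) * (1 + q / 2 ^ a) ^ (-(3 / 2) : ℝ) := by
  have hp' : 0 ≤ p / 2 ^ a := by positivity
  have hq' : 0 ≤ q / 2 ^ a := by positivity
  rw [← Real.mul_rpow (by positivity) (by positivity)]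
  have h1 : wt a (p + q) = ((1 + (p + q) / 2 ^ a) ^ 2) ^ (-(3 / 2) : ℝ) := by
    unfold wt
    rw [Real.rpow_neg (by positivity), ← Real.rpow_natCast _ 2, ← Real.rpow_mul (by positivity),
      ← Real.rpow_natCast _ 3]
    norm_num
  rw [h1]
  apply Real.rpow_le_rpow_of_nonpos (by positivity) _ (by norm_num)
  rw [add_div]
  nlinarith [mul_nonneg hp' hq', sq_nonneg (p / 2 ^ a), sq_nonneg (q / 2 ^ a)]

theorem wt_le' (a : ℕ) {p : ℝ} (hp : 0 ≤ p) :
    wt a p ≤ (1 + p / 2 ^ a) ^ (-(3 / 2) : ℝ) := by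
  have := wt_le a hp le_rfl
  simpa using this

theorem wint_thm : S_wint := by
  obtain ⟨I, hI⟩ : ∃ I : ℝ, I = (∫⁻ u, H u).toReal := ⟨_, rfl⟩
  have hI0 : 0 ≤ I := hI ▸ ENNReal.toReal_nonneg
  have hI' : ∫⁻ u, H u = ENNReal.ofReal I := by
    rw [hI, ENNReal.ofReal_toReal H_int.ne]
  have hx : ∀ (a : ℕ) (x : ℝ), ∫⁻ v, H ((v + x) / 2 ^ a) = ENNReal.ofReal (2 ^ a * I) := by
    intro a x
    rw [H_scale, hI', ENNReal.ofReal_mul (by positivity)]
  have hH : ∀ (a : ℕ) (v x : ℝ), H ((v + x) / 2 ^ a) =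
      ENNReal.ofReal ((1 + |v + x| / 2 ^ a) ^ (-(3 / 2) : ℝ)) := by
    intro a v x
    unfold H
    rw [abs_div, abs_of_pos (show (0 : ℝ) < 2 ^ a by positivity)]
  refine ⟨I + I ^ 2, by positivity, fun a => ⟨fun x => ?_, fun x => ?_⟩⟩
  · calc ∫⁻ v : ℝ, ENNReal.ofReal (wt a |v + x|) ≤ ∫⁻ v, H ((v + x) / 2 ^ a) := by
          refine lintegral_mono fun v => ?_
          rw [hH]
          exact ENNReal.ofReal_le_ofReal (wt_le' a (abs_nonneg _))
      _ = ENNReal.ofReal (2 ^ a * I) := hx a x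
      _ ≤ _ := by
          apply ENNReal.ofReal_le_ofReal
          have : (0 : ℝ) < 2 ^ a := by positivity
          nlinarith [mul_nonneg this.le (sq_nonneg I)]
  · calc ∫⁻ v : ℝ × ℝ, ENNReal.ofReal (wt a (|v.1 + x.1| + |v.2 + x.2|))
        ≤ ∫⁻ v : ℝ × ℝ, H ((v.1 + x.1) / 2 ^ a) * H ((v.2 + x.2) / 2 ^ a) := by
          refine lintegral_mono fun v => ?_
          rw [hH, hH, ← ENNReal.ofReal_mul (by positivity)]
          exact ENNReal.ofReal_le_ofReal (wt_le a (abs_nonneg _) (abs_nonneg _))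
      _ = (∫⁻ v, H ((v + x.1) / 2 ^ a)) * ∫⁻ v, H ((v + x.2) / 2 ^ a) := by
          rw [Measure.volume_eq_prod]
          exact lintegral_prod_mul (μ := volume) (ν := volume) (f := fun v => H ((v + x.1) / 2 ^ a))
            (g := fun v => H ((v + x.2) / 2 ^ a))
            (H_meas.comp (by fun_prop)).aemeasurable (H_meas.comp (by fun_prop)).aemeasurable
      _ = ENNReal.ofReal (2 ^ a * I * (2 ^ a * I)) := by
          rw [hx, hx, ← ENNReal.ofReal_mul (by positivity)]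
      _ ≤ _ := by
          apply ENNReal.ofReal_le_ofReal
          have h4 : (4 : ℝ) ^ a = 2 ^ a * 2 ^ a := by
            rw [← mul_pow]
            norm_num
          rw [h4]
          have : (0 : ℝ) < 2 ^ a * 2 ^ a := by positivity
          nlinarith [mul_nonneg this.le hI0]

end Pool.Agent.W585.PC
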